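import Pool.Agent.helper92.VT.Spec

universe u

namespace Pool.Agent.helper92.VT

open MvPolynomial Pool.Agent.helper92.VC

theorem CL2_congr {k : Type u} [Field k] {n d m L D : ℕ} {φ φ' : (Fin n → ℕ) → k}
    (h : NF k n d m L D φ) (h' : ∀ e : Fin n → ℕ, (∀ i, e i ≤ d) → φ' e = φ e) :
    NF k n d m L D φ' := by
  obtain ⟨Φ, h1, h2, h3⟩ := h
  exact ⟨Φ, h1, h2, fun e he => (h' e he).trans (h3 e he)⟩

/-- the arithmetic of the sizes -/
theorem CL2_num (n w d E : ℕ) (S M q x : ℕ) (hS : S = (n + w * (w + 1) + d + 2) ^ E)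
    (hM : M = S + n * w) (hx : x = n + w + d + 2) (hq : q = x ^ (2 * E + 20)) :
    M ≤ q ∧ (2 * n * bg w d + 2 * w) + 2 * n * bb n w d S + 2 * M + 2 * w + n + 5 ≤ q := by
  have hx2 : 2 ≤ x := by omega
  have hx1 : 1 ≤ x := by omega
  have hSx : S ≤ x ^ (2 * E) := by
    rw [hS, pow_mul]
    apply Nat.pow_le_pow_left
    rw [hx, sq]
    nlinarith [Nat.zero_le (n * w), Nat.zero_le (n * d), Nat.zero_le (w * d), Nat.zero_le (n * n),
      Nat.zero_le (d * d)]
  have hS1 : 1 ≤ S := by rw [hS]; exact Nat.one_le_pow _ _ (by omega)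
  have hn : n + 1 ≤ x := by omega
  have hw : w + 1 ≤ x := by omega
  have hd : d + 1 ≤ x := by omega
  have hp : 1 ≤ x ^ (2 * E) := Nat.one_le_pow _ _ (by omega)
  have hbb : bb n w d S ≤ x ^ (2 * E) * (200 * x ^ 7) := by
    unfold bb
    have h1 : S + 1 ≤ 2 * x ^ (2 * E) := by omega
    calc 100 * (n + 1) * (w + 1) ^ 5 * (d + 1) * (S + 1)
        ≤ 100 * x * x ^ 5 * x * (2 * x ^ (2 * E)) := by gcongr
      _ = x ^ (2 * E) * (200 * x ^ 7) := by ring
  have hbg : bg w d ≤ 8 * x ^ 4 := by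
    unfold bg
    calc 8 * (w + 1) ^ 3 * (d + 1) ≤ 8 * x ^ 3 * x := by gcongr
      _ = 8 * x ^ 4 := by ring
  have hM1 : M ≤ x ^ (2 * E) * (2 * x ^ 2) := by
    rw [hM]
    have h1 : n * w ≤ x ^ 2 := by rw [sq]; apply Nat.mul_le_mul <;> omega
    have h2 : x ^ 2 ≤ x ^ (2 * E) * x ^ 2 := Nat.le_mul_of_pos_left _ hp
    have h3 : x ^ (2 * E) ≤ x ^ (2 * E) * x ^ 2 := Nat.le_mul_of_pos_right _ (by positivity)
    calc S + n * w ≤ x ^ (2 * E) * x ^ 2 + x ^ (2 * E) * x ^ 2 := by omega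
      _ = _ := by ring
  have h20 : x ^ (2 * E + 20) = x ^ (2 * E) * (x ^ 8 * x ^ 12) := by ring
  have h12 : 4096 ≤ x ^ 12 := by
    calc 4096 = 2 ^ 12 := by norm_num
      _ ≤ x ^ 12 := Nat.pow_le_pow_left hx2 12
  have hmono : ∀ a b : ℕ, a ≤ b → x ^ a ≤ x ^ b := fun a b h => Nat.pow_le_pow_right hx1 h
  have hQ : x ^ (2 * E) * (4096 * x ^ 8) ≤ q := by
    rw [hq, h20]
    apply Nat.mul_le_mul_left
    rw [mul_comm]
    apply Nat.mul_le_mul_left _ h12
  have hP8 : x ^ 8 ≤ x ^ (2 * E) * x ^ 8 := Nat.le_mul_of_pos_left _ hp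
  constructor
  · refine hM1.trans (le_trans ?_ hQ)
    apply Nat.mul_le_mul_left
    have := hmono 2 8 (by norm_num)
    omega
  · refine le_trans ?_ hQ
    have e1 : 2 * n * bg w d ≤ 16 * (x ^ (2 * E) * x ^ 8) := by
      calc 2 * n * bg w d ≤ 2 * x * (8 * x ^ 4) := by gcongr; omega
        _ = 16 * x ^ 5 := by ring
        _ ≤ 16 * x ^ 8 := by have := hmono 5 8 (by norm_num); omega
        _ ≤ _ := by omega
    have e2 : 2 * n * bb n w d S ≤ 400 * (x ^ (2 * E) * x ^ 8) := by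
      calc 2 * n * bb n w d S ≤ 2 * x * (x ^ (2 * E) * (200 * x ^ 7)) := by gcongr; omega
        _ = _ := by ring
    have e3 : M ≤ 2 * (x ^ (2 * E) * x ^ 8) := by
      refine hM1.trans ?_
      have h1 := Nat.mul_le_mul_left (x ^ (2 * E)) (hmono 2 8 (by norm_num))
      calc x ^ (2 * E) * (2 * x ^ 2) = 2 * (x ^ (2 * E) * x ^ 2) := by ring
        _ ≤ _ := by omega
    have e4 : x ≤ x ^ (2 * E) * x ^ 8 := by
      calc x = x ^ 1 := (pow_one x).symm
        _ ≤ x ^ 8 := hmono 1 8 (by norm_num)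
        _ ≤ _ := hP8
    have e5 : x ^ (2 * E) * (4096 * x ^ 8) = 4096 * (x ^ (2 * E) * x ^ 8) := by ring
    rw [e5]
    omega

theorem CL2 (hELM : ELM_stmt.{u}) (hSUL : SUL_stmt.{u}) (hSUN : SUN_stmt.{u})
    (hNPD : NPD_stmt.{u}) (hNAD : NAD_stmt.{u}) (hNGP : NGP_stmt.{u}) : CL2_stmt.{u} := by
  intro R K k _ _ _ _ _ _ _ π c
  induction c with
  | zero =>
    refine ⟨0, fun n w d t ht F A hA hF => ?_⟩
    have hF0 : ∀ e, F e = 0 := by
      intro e
      apply IsFractionRing.injective R K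
      rw [hF, map_zero]
      simp
    refine ⟨0, ⟨[], SLP.nil, Nat.zero_le _, Or.inr (Or.inl ⟨0, C_0.symm⟩)⟩, ?_, fun e he => ?_⟩
    · rw [totalDegree_zero]
      exact Nat.zero_le _
    · show π (F e) = _
      rw [hF0, map_zero]
      exact (Finset.sum_eq_zero fun z _ => map_zero _).symm
  | succ c ih =>
    obtain ⟨E, hE⟩ := ih
    refine ⟨2 * E + 20, fun n w d t ht F A hA hF => ?_⟩
    obtain ⟨S, hS⟩ : ∃ S, S = (n + w * (w + 1) + d + 2) ^ E := ⟨_, rfl⟩
    obtain ⟨q, hq⟩ : ∃ q, q = (n + w + d + 2) ^ (2 * E + 20) := ⟨_, rfl⟩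
    rw [← hq]
    have hElim : ∀ l : List (Fin n), DimLE K w {T' | ∃ γ, T' = fixs l γ (A 0)} →
        Elim R k π n w d S F l := by
      intro l hl
      exact hELM R K k π n c w d S (fun i => t i.succ) F (A 0) (fun i => A i.succ) l hl
        (fun i => hA i.succ) (fun e => by rw [hF e, Fin.sum_univ_succ])
        (fun N A' hA' hN => by
          rw [hS]
          exact hE n (w * (w + 1)) d (fun i => t i.succ) (fun i => ht i.succ) N A' hA' hN)
    have hset : ∀ l : List (Fin n), {T' | ∃ T ∈ ({A 0} : Set ((Fin n → ℕ) → K)), ∃ γ,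
        T' = fixs l γ T} = {T' | ∃ γ, T' = fixs l γ (A 0)} := by
      intro l
      ext T'
      simp
    have hsub : ∀ u : Tr (Fin n), u.leaves.Nodup → TR K w u {A 0} → SubSt R k π n w d S F u := by
      intro u
      induction u with
      | leaf x =>
        intro _ hT
        have hT' : DimLE K w {T' | ∃ T ∈ ({A 0} : Set ((Fin n → ℕ) → K)), ∃ γ,
          T' = fixs [x] γ T} := hT
        rw [hset] at hT'
        exact hSUL R k π n w d S F x (hElim _ hT')
      | node a b iha ihb =>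
        intro hnd hT
        obtain ⟨hT1, hTa, hTb⟩ := hT
        rw [hset] at hT1
        have hnd' : (a.leaves ++ b.leaves).Nodup := hnd
        exact hSUN R k π n w d S F a b hnd' (hElim _ hT1)
          (iha (List.nodup_append.1 hnd').1 hTa) (ihb (List.nodup_append.1 hnd').2.1 hTb)
    obtain ⟨m, β, Λ, G, Er, hm, hβ, hΛ, hG, hC, hD, hFe, hN⟩ := hsub (t 0)
      ((ht 0).nodup_iff.2 (List.nodup_finRange n)) (hA 0)
    have hlen : (t 0).leaves.length = n := by simpa using (ht 0).length_eq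
    have hall : ∀ x, x ∈ (t 0).leaves := fun x => (ht 0).mem_iff.2 (List.mem_finRange x)
    rw [hlen] at hC hD hN
    have hovr : ∀ s e, ovr (t 0).leaves (β s) e = β s := by
      intro s e
      funext x
      unfold ovr
      rw [if_pos (hall x)]
    simp only [hovr] at hFe
    obtain ⟨hM, hL⟩ := CL2_num n w d E S (S + n * w) q (n + w + d + 2) hS rfl rfl hq
    clear hq hS
    -- the main term
    have hcomp : ComputedIn (∑ s, C (π (F (β s))) * G s)
        ((2 * n - 1) * bg w d + m * (1 + 1)) := by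
      have h1 := CST_E_trans hC (CST_E_sum (S := ∅ ∪ Set.range G) (Finset.univ : Finset (Fin m))
        (fun s => C (π (F (β s))) * G s) 1 (fun s _ => CST_E_mono (CST_E_mul (CST_E_C _ _)
          (CST_E_self (a := G s) (Or.inr ⟨_, rfl⟩))) subset_rfl subset_rfl (by norm_num)))
      rw [Finset.card_univ, Fintype.card_fin] at h1
      obtain ⟨l, hl1, hl2, hl3⟩ := h1 [] SLP.nil (by simp)
      rw [List.append_nil] at hl1 hl3
      exact ⟨l, hl1, hl2, hl3 _ (Or.inr rfl)⟩
    have hdeg : (∑ s, C (π (F (β s))) * G s).totalDegree ≤ n := by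
      refine totalDegree_finsetSum_le fun s _ => ?_
      refine (totalDegree_mul _ _).trans ?_
      rw [totalDegree_C, zero_add]
      exact hD s
    have hmain := hNGP k n d _ _ _ hcomp hdeg
    have hb1 : (2 * n - 1) * bb n w d S ≤ 2 * n * bb n w d S :=
      Nat.mul_le_mul_right _ (by omega)
    have hb2 : (2 * n - 1) * bg w d ≤ 2 * n * bg w d := Nat.mul_le_mul_right _ (by omega)
    have p1 := hNPD k n d _ _ _ (S + n * w) (2 * n * bg w d + 2 * w + 2 * (S + n * w))
      (2 * n * bb n w d S + n + (S + n * w)) _ hmain (by omega) (by omega) (by omega)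
    have p2 := hNPD k n d _ _ _ (S + n * w) (2 * n * bb n w d S)
      (2 * n * bb n w d S + n + (S + n * w)) _ hN le_rfl (by omega) (by omega)
    have p3 := hNAD k n d _ _ _ _ _ _ p1 p2
    refine CL2_congr (hNPD k n d _ _ _ q (3 * q) (3 * q) _ p3 hM (by omega) (by omega)) ?_
    intro e he
    rw [hFe e he]
    simp only [map_add, map_sum, map_mul, hG _ e he, eval_C]
    congr 1
    refine Finset.sum_congr rfl fun s _ => ?_
    ring

end Pool.Agent.helper92.VT
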