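import Pool.Agent.helper92.VT.Spec
import Pool.Agent.helper44.VC.RTF

universe u

namespace Pool.Agent.helper92.VT

open MvPolynomial Pool.Agent.helper92.VC
open scoped RatFunc

theorem FN2_lift {k : Type u} [Field k] {n : ℕ} (f : MvPolynomial (Fin n) k)
    (F : MvPolynomial (Fin n) (RatFunc k)) (hs : SpecializesTo F f) :
    ∃ G : MvPolynomial (Fin n) (PowerSeries k),
      MvPolynomial.map (algebraMap (PowerSeries k) (LaurentSeries k)) G =
        MvPolynomial.map (algebraMap (RatFunc k) (LaurentSeries k)) F ∧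
      MvPolynomial.map (PowerSeries.constantCoeff (R := k)) G = f := by
  classical
  let G : MvPolynomial (Fin n) (PowerSeries k) :=
    ∑ m ∈ F.support, monomial m (RTF_ps (F.coeff m))
  have hG : ∀ m, G.coeff m = RTF_ps (F.coeff m) := by
    intro m
    simp only [G, coeff_sum, coeff_monomial]
    rw [Finset.sum_ite_eq' F.support m]
    split_ifs with h
    · rfl
    · rw [notMem_support_iff.mp h, RTF_ps_zero]
  refine ⟨G, MvPolynomial.ext _ _ fun m => ?_, MvPolynomial.ext _ _ fun m => ?_⟩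
  · rw [coeff_map, coeff_map, hG, RTF_ps_map _ (hs m).1]
  · rw [coeff_map, hG, RTF_ps_const, (hs m).2]

theorem FN2_const (hNGP : NGP_stmt.{u}) {k : Type u} [Field k] (v d : ℕ) (hv : v = 0)
    (f : MvPolynomial (Fin v) k) : NF k v d 0 0 0
      (fun e => MvPolynomial.coeff (Finsupp.equivFunOnFinite.symm e) f) := by
  subst hv
  obtain ⟨Φ, h1, h2, h3⟩ := hNGP k 0 d 0 0 (C (MvPolynomial.coeff 0 f))
    ⟨[], SLP.nil, le_rfl, Or.inr (Or.inl ⟨_, rfl⟩)⟩ (by rw [totalDegree_C])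
  refine ⟨Φ, h1, h2, fun e he => ?_⟩
  rw [← h3 e he]
  simp only [eval_C]
  congr 1
  ext x
  exact x.elim0

theorem FN2 (hCL2 : CL2_stmt.{u}) (hNTC : NTC_stmt.{u}) (hTNR : TNR_stmt.{u})
    (hNMP : NMP_stmt.{u}) (hNGP : NGP_stmt.{u}) (hNVP : NVP_stmt.{u}) (hPBD : PBD_stmt) :
    FN2_stmt.{u} := by
  intro k _ c F w hF hw happ
  obtain ⟨E, hE⟩ := hCL2 (PowerSeries k) (LaurentSeries k) k (PowerSeries.constantCoeff (R := k)) c
  obtain ⟨hconst, hle, hadd, hmul, hpow⟩ := hPBD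
  refine hNVP k F (fun n => 3 * (F.v n + w n + (F.f n).totalDegree + 2) ^ E) hF ?_ ?_
  · exact hmul _ _ (hconst 3) (hpow _ E (hadd _ _ (hadd _ _ (hadd _ _ hF.1 hw) hF.2) (hconst 2)))
  intro n
  rcases Nat.eq_zero_or_pos (F.v n) with hv | hv
  · exact ⟨0, 0, 0, Nat.zero_le _, Nat.zero_le _, Nat.zero_le _,
      FN2_const hNGP (F.v n) _ hv (F.f n)⟩
  obtain ⟨G, hG, hs⟩ := happ n hv
  obtain ⟨G', hG', hf⟩ := FN2_lift _ _ hs
  obtain ⟨B, hB, hGB⟩ := hNMP (F.v n) (RatFunc k) (LaurentSeries k)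
    (algebraMap (RatFunc k) (LaurentSeries k)) c (w n) G hG
  choose t ht P hP u hBu using hB
  choose Q hQ hPQ using fun i => hNTC (F.v n) (LaurentSeries k) (w n) (t i)
    ((ht i).nodup_iff.2 (List.nodup_finRange _)) (P i) (hP i)
  have hcf : ∀ i s (e : Fin (F.v n) →₀ ℕ), MvPolynomial.coeff e (P i s) = Q i s (fun x => e x) := by
    intro i s e
    rw [hPQ, if_pos]
    intro y hy
    exact absurd ((ht i).mem_iff.2 (List.mem_finRange y)) hy
  have hNF := hE (F.v n) (w n) (F.f n).totalDegree t ht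
    (fun e => MvPolynomial.coeff (Finsupp.equivFunOnFinite.symm e) G')
    (fun i e => ∑ s, u i s * Q i s e)
    (fun i => hTNR _ _ _ _ ((ht i).nodup_iff.2 (List.nodup_finRange _)) _ _ (hQ i)) (by
      intro e
      rw [← MvPolynomial.coeff_map, hG', hGB, MvPolynomial.coeff_sum]
      refine Finset.sum_congr rfl fun i _ => ?_
      rw [hBu i, MvPolynomial.coeff_sum]
      refine Finset.sum_congr rfl fun s _ => ?_
      rw [MvPolynomial.coeff_C_mul, hcf]
      rfl)
  have hfun : (fun e => MvPolynomial.coeff (Finsupp.equivFunOnFinite.symm e) (F.f n)) =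
      fun e => (PowerSeries.constantCoeff (R := k))
        (MvPolynomial.coeff (Finsupp.equivFunOnFinite.symm e) G') := by
    funext e
    rw [← MvPolynomial.coeff_map, hf]
  rw [← hfun] at hNF
  exact ⟨_, _, _, Nat.le_mul_of_pos_left _ (by norm_num), le_rfl, le_rfl, hNF⟩

end Pool.Agent.helper92.VT
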