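import Pool.Agent.helper92.VT.Spec

universe u

namespace Pool.Agent.helper92.VT

open MvPolynomial Pool.Agent.helper92.VC

theorem SUL_bb (n w d S : ℕ) : 100 * ((w + 1) * (d + 1) * (S + 1)) ≤ bb n w d S := by
  unfold bb
  have h1 : 1 ≤ (n + 1) * (w + 1) ^ 4 := Nat.one_le_iff_ne_zero.2 (by positivity)
  calc 100 * ((w + 1) * (d + 1) * (S + 1)) = 1 * (100 * ((w + 1) * (d + 1) * (S + 1))) := by ring
    _ ≤ ((n + 1) * (w + 1) ^ 4) * (100 * ((w + 1) * (d + 1) * (S + 1))) :=
        Nat.mul_le_mul_right _ h1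
    _ = _ := by ring

theorem SUL_bg (w d : ℕ) : 8 * ((w + 1) * (d + 1)) ≤ bg w d := by
  unfold bg
  have h1 : 1 ≤ (w + 1) ^ 2 := Nat.one_le_iff_ne_zero.2 (by positivity)
  calc 8 * ((w + 1) * (d + 1)) = 1 * (8 * ((w + 1) * (d + 1))) := by ring
    _ ≤ (w + 1) ^ 2 * (8 * ((w + 1) * (d + 1))) := Nat.mul_le_mul_right _ h1
    _ = _ := by ring

theorem SUL_range {σ : Type} {k : Type u} [CommRing k] {m r : ℕ} (G : Fin m → MvPolynomial σ k)
    (S : Set (MvPolynomial σ k)) (h : ∀ t, CST_E S {G t} r) : CST_E S (Set.range G) (m * r) := by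
  have h1 := CST_E_iUnion (S := S) (Finset.univ : Finset (Fin m)) (fun t => {G t}) r
    (fun t _ => h t)
  rw [Finset.card_univ, Fintype.card_fin] at h1
  refine CST_E_mono h1 subset_rfl ?_ le_rfl
  rintro _ ⟨t, rfl⟩
  exact Set.mem_iUnion₂.2 ⟨t, Finset.mem_univ t, rfl⟩

theorem SUL (hNPD : NPD_stmt.{u}) (hNSM : NSM_stmt.{u}) (hNML : NML_stmt.{u})
    (hNGP : NGP_stmt.{u}) : SUL_stmt.{u} := by
  intro R k _ _ π n w d S F x hE
  obtain ⟨m, b, r, hm, hN⟩ := hE (Fin (d + 1)) (fun j _ => (j : ℕ))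
  have hbb := SUL_bb n w d S
  have hbg := SUL_bg w d
  refine ⟨m, fun t _ => (b t : ℕ), fun t e => if h : e x < d + 1 then r ⟨e x, h⟩ t else 0,
    fun t => ∑ j, C (π (r j t)) * X (x, j),
    fun e => if h : e x < d + 1 then F (ovr [x] (fun _ => e x) e) -
      ∑ s, r ⟨e x, h⟩ s * F (ovr [x] (fun _ => (b s : ℕ)) e) else 0,
    hm, fun t _ => Nat.le_of_lt_succ (b t).2, ?_, ?_, ?_, ?_, ?_, ?_⟩
  · intro t e e' h
    have hx : e x = e' x := h x (by simp [Tr.leaves])
    simp only [hx]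
  · intro t e he
    have h : e x < d + 1 := Nat.lt_succ_of_le (he x)
    simp only [h, dite_true, map_sum, map_mul, eval_C, eval_X, oh]
    rw [Finset.sum_eq_single (⟨e x, h⟩ : Fin (d + 1))]
    · simp
    · intro j _ hj
      have : e x ≠ (j : ℕ) := fun h' => hj (Fin.ext h'.symm)
      simp [this]
    · intro h'
      exact absurd (Finset.mem_univ _) h'
  · have h1 : ∀ t, CST_E (∅ : Set (MvPolynomial (Fin n × Fin (d + 1)) k))
        {∑ j, C (π (r j t)) * X (x, j)} ((d + 1) * 2) := by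
      intro t
      have h2 := CST_E_sum (S := (∅ : Set (MvPolynomial (Fin n × Fin (d + 1)) k)))
        (Finset.univ : Finset (Fin (d + 1))) (fun j => C (π (r j t)) * X (x, j)) 1
        (fun j _ => CST_E_mono (CST_E_mul (CST_E_C _ _) (CST_E_X _ _)) subset_rfl subset_rfl
          (by norm_num))
      rwa [Finset.card_univ, Fintype.card_fin] at h2
    refine CST_E_mono (SUL_range _ _ h1) subset_rfl subset_rfl ?_
    simp only [Tr.leaves, List.length_singleton]
    calc m * ((d + 1) * 2) ≤ w * ((d + 1) * 2) := Nat.mul_le_mul_right _ hm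
      _ ≤ 8 * ((w + 1) * (d + 1)) := by nlinarith [Nat.zero_le (w * d)]
      _ ≤ (2 * 1 - 1) * bg w d := by omega
  · intro t
    simp only [Tr.leaves, List.length_singleton]
    refine (totalDegree_finsetSum_le fun j _ => ?_)
    refine (totalDegree_mul _ _).trans ?_
    rw [totalDegree_C, totalDegree_X]
  · intro e he
    have h : e x < d + 1 := Nat.lt_succ_of_le (he x)
    have h1 : ovr [x] (fun _ => e x) e = e := by
      funext y
      unfold ovr
      split_ifs with hy
      · rw [List.mem_singleton.1 hy]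
      · rfl
    simp only [h, dite_true, h1, Tr.leaves]
    ring
  · have h1 : ∀ j : Fin (d + 1), NF k n d (0 + S) (0 + 3 * S + 1) (1 + 3 * S)
        (fun e => MvPolynomial.eval (oh k n d e) (X (x, j)) *
          π (F (ovr [x] (fun _ => (j : ℕ)) e) -
            ∑ s, r j s * F (ovr [x] (fun _ => (b s : ℕ)) e))) := by
      intro j
      refine hNML k n d 0 0 1 S (3 * S) (3 * S) _ _ ?_ (hN j)
      exact hNGP k n d 0 1 (X (x, j)) ⟨[], SLP.nil, le_rfl, Or.inl ⟨_, rfl⟩⟩
        (by rw [totalDegree_X])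
    have h2 := hNSM k n d _ _ _ (Fin (d + 1)) _ h1
    rw [Fintype.card_fin] at h2
    have h3 : NF k n d (0 + S) ((d + 1) * (0 + 3 * S + 1 + 1)) (1 + 3 * S) (fun e =>
        π (if h : e x < d + 1 then F (ovr [x] (fun _ => e x) e) -
          ∑ s, r ⟨e x, h⟩ s * F (ovr [x] (fun _ => (b s : ℕ)) e) else 0)) := by
      obtain ⟨Φ, hΦ1, hΦ2, hΦ3⟩ := h2
      refine ⟨Φ, hΦ1, hΦ2, fun e he => ?_⟩
      rw [← hΦ3 e he]
      have h : e x < d + 1 := Nat.lt_succ_of_le (he x)
      simp only [h, dite_true, eval_X, oh]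
      rw [Finset.sum_eq_single (⟨e x, h⟩ : Fin (d + 1))]
      · simp
      · intro j _ hj
        have : e x ≠ (j : ℕ) := fun h' => hj (Fin.ext h'.symm)
        simp [this]
      · intro h'
        exact absurd (Finset.mem_univ _) h'
    have e1 : (d + 1) * (3 * S + 2) + 2 * w ≤ 100 * ((w + 1) * (d + 1) * (S + 1)) := by
      have hX : 1 ≤ (d + 1) * (S + 1) := Nat.one_le_iff_ne_zero.2 (by positivity)
      have h4 : w ≤ w * ((d + 1) * (S + 1)) := Nat.le_mul_of_pos_right w (by positivity)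
      have h5 : (d + 1) * (3 * S + 2) ≤ 3 * ((d + 1) * (S + 1)) := by nlinarith
      nlinarith
    have e2 : 1 + 3 * S + w ≤ 100 * ((w + 1) * (d + 1) * (S + 1)) := by
      have h4 : w ≤ w * ((d + 1) * (S + 1)) := Nat.le_mul_of_pos_right w (by positivity)
      have h5 : S + 1 ≤ (d + 1) * (S + 1) := Nat.le_mul_of_pos_left _ (by positivity)
      nlinarith
    refine hNPD k n d _ _ _ _ _ _ _ h3 ?_ ?_ ?_
    · simp only [Tr.leaves, List.length_singleton]; omega
    · simp only [Tr.leaves, List.length_singleton]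
      have : S + 1 * w - (0 + S) = w := by omega
      rw [this]
      have h6 : (d + 1) * (0 + 3 * S + 1 + 1) = (d + 1) * (3 * S + 2) := by ring
      rw [h6]
      omega
    · simp only [Tr.leaves, List.length_singleton]
      have : S + 1 * w - (0 + S) = w := by omega
      rw [this]
      omega

end Pool.Agent.helper92.VT
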