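import Pool.Agent.helper92.VT.Spec

universe u

namespace Pool.Agent.helper92.VT

open MvPolynomial Pool.Agent.helper92.VC

theorem SUN_len {ι : Type} (t : Tr ι) : 1 ≤ t.leaves.length := by
  induction t with
  | leaf x => simp [Tr.leaves]
  | node a b iha ihb => simp only [Tr.leaves, List.length_append]; omega

theorem SUN_num (n w d S na nb ma mb : ℕ) (hn : na + nb ≤ n) (ha : 1 ≤ na) (hb : 1 ≤ nb)
    (hma : ma ≤ w) (hmb : mb ≤ w) :
    ma * mb * ((2 * na - 1) * bg w d + (2 * nb - 1) * bg w d + 1 + 3 * S + 1 + 1) +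
      2 * ((na + nb) * w) + (2 * na - 1) * bg w d + 8 * (n + 1) * (d + 1) * (ma + 1) ^ 2 +
      2 * (na * w) + 2 * (nb * w) + 2 + ((na + nb) + 3 * S + (na + nb) * w + 1) ≤ bb n w d S := by
  set X := (n + 1) * (w + 1) ^ 5 * (d + 1) * (S + 1) with hX
  have hbb : bb n w d S = 100 * X := by unfold bb; rw [hX]; ring
  have hS1 : ∀ y : ℕ, y ≤ y * (S + 1) := fun y => Nat.le_mul_of_pos_right y (by positivity)
  have hsq : ma * mb ≤ w ^ 2 := by rw [sq]; exact Nat.mul_le_mul hma hmb
  have h1 : ma * mb * ((2 * na - 1) * bg w d + (2 * nb - 1) * bg w d) ≤ 16 * X := by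
    calc ma * mb * ((2 * na - 1) * bg w d + (2 * nb - 1) * bg w d)
        ≤ w ^ 2 * (2 * n * bg w d) := by
          apply Nat.mul_le_mul hsq
          rw [← Nat.add_mul]
          apply Nat.mul_le_mul_right
          omega
      _ ≤ (w + 1) ^ 2 * (2 * (n + 1) * bg w d) := by
          apply Nat.mul_le_mul (Nat.pow_le_pow_left (Nat.le_succ w) 2)
          apply Nat.mul_le_mul_right
          omega
      _ = 16 * ((n + 1) * (w + 1) ^ 5 * (d + 1)) := by unfold bg; ring
      _ ≤ 16 * ((n + 1) * (w + 1) ^ 5 * (d + 1)) * (S + 1) := hS1 _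
      _ = 16 * X := by rw [hX]; ring
  have h2 : ma * mb * (3 * S + 3) ≤ 3 * X := by
    calc ma * mb * (3 * S + 3) ≤ (w + 1) ^ 2 * (3 * (S + 1)) := by
          apply Nat.mul_le_mul (hsq.trans (Nat.pow_le_pow_left (Nat.le_succ w) 2))
          omega
      _ = 3 * (1 * (w + 1) ^ 2 * 1 * (S + 1)) := by ring
      _ ≤ 3 * X := by
          rw [hX]
          gcongr <;> omega
  have h3 : (2 * na - 1) * bg w d ≤ 16 * X := by
    calc (2 * na - 1) * bg w d ≤ 2 * (n + 1) * bg w d := by
          apply Nat.mul_le_mul_right; omega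
      _ = 16 * ((n + 1) * (w + 1) ^ 3 * (d + 1) * 1) := by unfold bg; ring
      _ ≤ 16 * X := by
          rw [hX]
          gcongr <;> omega
  have h4 : 8 * (n + 1) * (d + 1) * (ma + 1) ^ 2 ≤ 8 * X := by
    calc 8 * (n + 1) * (d + 1) * (ma + 1) ^ 2 ≤ 8 * (n + 1) * (d + 1) * (w + 1) ^ 2 := by
          gcongr
      _ = 8 * ((n + 1) * (w + 1) ^ 2 * (d + 1) * 1) := by ring
      _ ≤ 8 * X := by
          rw [hX]
          gcongr <;> omega
  have h5 : (na + nb) * w ≤ X := by
    calc (na + nb) * w ≤ (n + 1) * (w + 1) := by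
          apply Nat.mul_le_mul <;> omega
      _ = (n + 1) * (w + 1) ^ 1 * 1 * 1 := by ring
      _ ≤ X := by
          rw [hX]
          gcongr <;> omega
  have h6 : na * w + nb * w = (na + nb) * w := by ring
  have h7 : S + 1 ≤ X := by
    calc S + 1 = 1 * 1 * 1 * (S + 1) := by ring
      _ ≤ X := by
          rw [hX]
          apply Nat.mul_le_mul_right
          exact Nat.one_le_iff_ne_zero.2 (by positivity)
  have h8 : n + 1 ≤ X := by
    calc n + 1 = (n + 1) * 1 * 1 * 1 := by ring
      _ ≤ X := by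
          rw [hX]
          have : 1 ≤ (w + 1) ^ 5 := Nat.one_le_iff_ne_zero.2 (by positivity)
          gcongr <;> omega
  rw [hbb]
  have h9 : ma * mb * ((2 * na - 1) * bg w d + (2 * nb - 1) * bg w d + 1 + 3 * S + 1 + 1) =
      ma * mb * ((2 * na - 1) * bg w d + (2 * nb - 1) * bg w d) + ma * mb * (3 * S + 3) := by ring
  rw [h9]
  omega

theorem SUN_range {σ : Type} {k : Type u} [CommRing k] {m r : ℕ} (G : Fin m → MvPolynomial σ k)
    (S : Set (MvPolynomial σ k)) (h : ∀ t, CST_E S {G t} r) : CST_E S (Set.range G) (m * r) := by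
  have h1 := CST_E_iUnion (S := S) (Finset.univ : Finset (Fin m)) (fun t => {G t}) r
    (fun t _ => h t)
  rw [Finset.card_univ, Fintype.card_fin] at h1
  refine CST_E_mono h1 subset_rfl ?_ le_rfl
  rintro _ ⟨t, rfl⟩
  exact Set.mem_iUnion₂.2 ⟨t, Finset.mem_univ t, rfl⟩

theorem SUN_ovr {ι : Type} [DecidableEq ι] (la lb : List ι) (h : (la ++ lb).Nodup)
    (α β e : ι → ℕ) : ovr lb β (ovr la α e) = ovr (la ++ lb) (ovr la α β) e := by
  have hdis : ∀ x, x ∈ la → x ∉ lb := fun x hx hx' =>
    (List.nodup_append.1 h).2.2 x hx x hx' rfl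
  funext x
  unfold ovr
  by_cases h1 : x ∈ la
  · have h2 := hdis x h1
    simp [h1, h2]
  · by_cases h2 : x ∈ lb
    · simp [h1, h2]
    · simp [h1, h2]

/-- an exponential sum is determined by its values -/
theorem SUN_congr {k : Type u} [Field k] {n d m L D : ℕ} {φ φ' : (Fin n → ℕ) → k}
    (h : NF k n d m L D φ) (h' : ∀ e : Fin n → ℕ, (∀ i, e i ≤ d) → φ' e = φ e) :
    NF k n d m L D φ' := by
  obtain ⟨Φ, h1, h2, h3⟩ := h
  exact ⟨Φ, h1, h2, fun e he => (h' e he).trans (h3 e he)⟩

theorem SUN (hNPD : NPD_stmt.{u}) (hNAD : NAD_stmt.{u}) (hNSM : NSM_stmt.{u})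
    (hNML : NML_stmt.{u}) (hNGP : NGP_stmt.{u}) (hNPO : NPO_stmt.{u}) : SUN_stmt.{u} := by
  intro R k _ _ π n w d S F a b hnd hE Ha Hb
  obtain ⟨ma, βa, Λa, Ga, Ea, hma, hβa, hΛa, hGa, hCa, hDa, hFa, hNa⟩ := Ha
  obtain ⟨mb, βb, Λb, Gb, Eb, hmb, hβb, hΛb, hGb, hCb, hDb, hFb, hNb⟩ := Hb
  obtain ⟨m, ix, r, hm, hN⟩ := hE (Fin ma × Fin mb) (fun p => ovr a.leaves (βa p.1) (βb p.2))
  have ha1 := SUN_len a
  have hb1 := SUN_len b
  have hlen : a.leaves.length + b.leaves.length ≤ n := by
    have h1 := hnd.length_le_card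
    rwa [List.length_append, Fintype.card_fin] at h1
  have hnum := SUN_num n w d S a.leaves.length b.leaves.length ma mb hlen ha1 hb1 hma hmb
  have hLsum : ∀ B : ℕ, (2 * (a.leaves.length + b.leaves.length) - 1) * B =
      (2 * a.leaves.length - 1) * B + (2 * b.leaves.length - 1) * B + B := by
    intro B
    have : 2 * (a.leaves.length + b.leaves.length) - 1 =
        (2 * a.leaves.length - 1) + (2 * b.leaves.length - 1) + 1 := by omega
    rw [this]; ring
  have hbox : ∀ (i : Fin ma) (e : Fin n → ℕ), (∀ x, e x ≤ d) →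
      ∀ x, ovr a.leaves (βa i) e x ≤ d := by
    intro i e he x
    unfold ovr
    split_ifs
    · exact hβa i x
    · exact he x
  have hdis : ∀ x, x ∈ a.leaves → x ∉ b.leaves := fun x hx hx' =>
    (List.nodup_append.1 hnd).2.2 x hx x hx' rfl
  have hΛb' : ∀ (i : Fin ma) (j : Fin mb) (e : Fin n → ℕ),
      Λb j (ovr a.leaves (βa i) e) = Λb j e := by
    intro i j e
    apply hΛb
    intro x hx
    unfold ovr
    rw [if_neg fun h' => hdis x h' hx]
  have hleaves : (Tr.node a b).leaves = a.leaves ++ b.leaves := rfl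
  have hleaveslen : (Tr.node a b).leaves.length = a.leaves.length + b.leaves.length := by
    rw [hleaves, List.length_append]
  refine ⟨m, fun t => ovr a.leaves (βa (ix t).1) (βb (ix t).2),
    fun t e => ∑ p : Fin ma × Fin mb, Λa p.1 e * Λb p.2 e * r p t,
    fun t => ∑ p : Fin ma × Fin mb, C (π (r p t)) * (Ga p.1 * Gb p.2),
    fun e => (∑ p : Fin ma × Fin mb, Λa p.1 e * Λb p.2 e *
        (F (ovr (a.leaves ++ b.leaves) (ovr a.leaves (βa p.1) (βb p.2)) e) -
          ∑ s, r p s * F (ovr (a.leaves ++ b.leaves)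
            (ovr a.leaves (βa (ix s).1) (βb (ix s).2)) e))) +
      (∑ i, Λa i e * Eb (ovr a.leaves (βa i) e)) + Ea e, hm, ?_, ?_, ?_, ?_, ?_, ?_, ?_⟩
  · intro t x
    show ovr a.leaves (βa (ix t).1) (βb (ix t).2) x ≤ d
    unfold ovr
    split_ifs
    · exact hβa _ x
    · exact hβb _ x
  · intro t e e' h
    rw [hleaves] at h
    refine Finset.sum_congr rfl fun p _ => ?_
    rw [hΛa p.1 e e' fun x hx => h x (List.mem_append_left _ hx),
      hΛb p.2 e e' fun x hx => h x (List.mem_append_right _ hx)]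
  · intro t e he
    simp only [map_sum, map_mul, eval_C, hGa _ e he, hGb _ e he]
    refine Finset.sum_congr rfl fun p _ => ?_
    ring
  · rw [hleaveslen, hLsum]
    have h1 := CST_E_union hCa hCb
    have h2 : ∀ t, CST_E (∅ ∪ (Set.range Ga ∪ Set.range Gb))
        {∑ p : Fin ma × Fin mb, C (π (r p t)) * (Ga p.1 * Gb p.2)} (ma * mb * 3) := by
      intro t
      have h3 := CST_E_sum (S := (∅ ∪ (Set.range Ga ∪ Set.range Gb)))
        (Finset.univ : Finset (Fin ma × Fin mb)) (fun p => C (π (r p t)) * (Ga p.1 * Gb p.2)) 2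
        (fun p _ => CST_E_mono (CST_E_mul (CST_E_C _ _) (CST_E_mul
          (CST_E_self (a := Ga p.1) (Or.inr (Or.inl ⟨_, rfl⟩)))
          (CST_E_self (a := Gb p.2) (Or.inr (Or.inr ⟨_, rfl⟩))))) subset_rfl subset_rfl
          (by norm_num))
      rwa [Finset.card_univ, Fintype.card_prod, Fintype.card_fin, Fintype.card_fin] at h3
    have h3 := CST_E_trans h1 (SUN_range _ _ h2)
    refine CST_E_mono h3 subset_rfl Set.subset_union_right ?_
    have h4 : m * (ma * mb * 3) ≤ bg w d := by
      calc m * (ma * mb * 3) ≤ w * (w * w * 3) := by gcongr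
        _ = 3 * w ^ 3 * 1 := by ring
        _ ≤ 8 * (w + 1) ^ 3 * (d + 1) := by gcongr <;> omega
        _ = bg w d := rfl
    omega
  · intro t
    rw [hleaveslen]
    refine totalDegree_finsetSum_le fun p _ => ?_
    refine (totalDegree_mul _ _).trans ?_
    rw [totalDegree_C, zero_add]
    exact (totalDegree_mul _ _).trans (Nat.add_le_add (hDa _) (hDb _))
  · intro e he
    have h1 := hFa e he
    have h2 : ∀ i : Fin ma, F (ovr a.leaves (βa i) e) =
        ∑ j, Λb j e * F (ovr (a.leaves ++ b.leaves) (ovr a.leaves (βa i) (βb j)) e) +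
          Eb (ovr a.leaves (βa i) e) := by
      intro i
      rw [hFb _ (hbox i e he)]
      congr 1
      refine Finset.sum_congr rfl fun j _ => ?_
      rw [hΛb' i j e, SUN_ovr a.leaves b.leaves hnd]
    rw [h1, hleaves]
    simp only [h2]
    simp only [mul_add, mul_sub, Finset.sum_add_distrib, Finset.sum_sub_distrib, Finset.mul_sum,
      Finset.sum_mul, Fintype.sum_prod_type]
    have h3 : ∀ f : Fin m → Fin ma → Fin mb → R,
        ∑ t, ∑ i, ∑ j, f t i j = ∑ i, ∑ j, ∑ t, f t i j := by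
      intro f
      rw [Finset.sum_comm]
      refine Finset.sum_congr rfl fun i _ => ?_
      rw [Finset.sum_comm]
    rw [h3]
    have h4 : ∀ i j, ∑ t, Λa i e * Λb j e * r (i, j) t *
        F (ovr (a.leaves ++ b.leaves) (ovr a.leaves (βa (ix t).1) (βb (ix t).2)) e) =
        ∑ t, Λa i e * Λb j e * (r (i, j) t *
        F (ovr (a.leaves ++ b.leaves) (ovr a.leaves (βa (ix t).1) (βb (ix t).2)) e)) :=
      fun i j => Finset.sum_congr rfl fun t _ => by ring
    simp only [h4, ← mul_assoc]
    ring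
  · rw [hleaveslen, hLsum]
    -- first part
    have hG1 : ∀ p : Fin ma × Fin mb, ComputedIn (Ga p.1 * Gb p.2)
        ((2 * a.leaves.length - 1) * bg w d + (2 * b.leaves.length - 1) * bg w d + 1) := by
      intro p
      have h1 := CST_E_trans (CST_E_union hCa hCb) (CST_E_mul
          (CST_E_self (S := ∅ ∪ (Set.range Ga ∪ Set.range Gb)) (a := Ga p.1)
            (Or.inr (Or.inl ⟨_, rfl⟩)))
          (CST_E_self (a := Gb p.2) (Or.inr (Or.inr ⟨_, rfl⟩))))
      obtain ⟨l, hl1, hl2, hl3⟩ := h1 [] SLP.nil (by simp)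
      rw [List.append_nil] at hl1 hl3
      exact ⟨l, hl1, hl2.trans (by omega), hl3 _ (Or.inr rfl)⟩
    have h1 : NF k n d (0 + S) (ma * mb * ((2 * a.leaves.length - 1) * bg w d +
        (2 * b.leaves.length - 1) * bg w d + 1 + 3 * S + 1 + 1))
        (a.leaves.length + b.leaves.length + 3 * S) (fun e => ∑ p : Fin ma × Fin mb,
          MvPolynomial.eval (oh k n d e) (Ga p.1 * Gb p.2) *
          π (F (ovr (a.leaves ++ b.leaves) (ovr a.leaves (βa p.1) (βb p.2)) e) -
          ∑ s, r p s * F (ovr (a.leaves ++ b.leaves)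
            (ovr a.leaves (βa (ix s).1) (βb (ix s).2)) e))) := by
      have h2 := hNSM k n d (0 + S) ((2 * a.leaves.length - 1) * bg w d +
        (2 * b.leaves.length - 1) * bg w d + 1 + 3 * S + 1)
        (a.leaves.length + b.leaves.length + 3 * S)
        (Fin ma × Fin mb) (fun p e => MvPolynomial.eval (oh k n d e) (Ga p.1 * Gb p.2) *
          π (F (ovr (a.leaves ++ b.leaves) (ovr a.leaves (βa p.1) (βb p.2)) e) -
          ∑ s, r p s * F (ovr (a.leaves ++ b.leaves)
            (ovr a.leaves (βa (ix s).1) (βb (ix s).2)) e)))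
        (fun p => hNML k n d _ _ _ _ _ _ _ _ (hNGP k n d _ _ _ (hG1 p)
          ((totalDegree_mul _ _).trans (Nat.add_le_add (hDa _) (hDb _)))) (hN p))
      rwa [Fintype.card_prod, Fintype.card_fin, Fintype.card_fin] at h2
    -- second part
    have h2 := hNPO k n d ma _ a.leaves.length _ _ _ Ga a.leaves βa (fun e => π (Eb e)) hCa hDa
      hβa hNb
    have haw : w ≤ a.leaves.length * w := Nat.le_mul_of_pos_left w ha1
    have hsplit : (a.leaves.length + b.leaves.length) * w =
      a.leaves.length * w + b.leaves.length * w := by ring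
    have hbbD : bb n w d S ≤ (2 * a.leaves.length - 1) * bb n w d S := by
      apply Nat.le_mul_of_pos_left
      omega
    have p1 := hNPD k n d _ _ _ (S + (a.leaves.length + b.leaves.length) * w)
      (ma * mb * ((2 * a.leaves.length - 1) * bg w d +
        (2 * b.leaves.length - 1) * bg w d + 1 + 3 * S + 1 + 1) +
        2 * ((a.leaves.length + b.leaves.length) * w))
      ((2 * a.leaves.length - 1) * bb n w d S + (2 * b.leaves.length - 1) * bb n w d S +
        bb n w d S) _ h1 (by omega) (by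
        have : S + (a.leaves.length + b.leaves.length) * w - (0 + S) =
          (a.leaves.length + b.leaves.length) * w := by omega
        rw [this]) (by omega)
    have p2 := hNPD k n d _ _ _ (S + (a.leaves.length + b.leaves.length) * w)
      ((2 * b.leaves.length - 1) * bb n w d S + (2 * a.leaves.length - 1) * bg w d +
        8 * (n + 1) * (d + 1) * (ma + 1) ^ 2 + 2 * (a.leaves.length * w))
      ((2 * a.leaves.length - 1) * bb n w d S + (2 * b.leaves.length - 1) * bb n w d S +
        bb n w d S) _ h2 (by omega) (by omega) (by omega)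
    have p3 := hNPD k n d _ _ _ (S + (a.leaves.length + b.leaves.length) * w)
      ((2 * a.leaves.length - 1) * bb n w d S + 2 * (b.leaves.length * w))
      ((2 * a.leaves.length - 1) * bb n w d S + (2 * b.leaves.length - 1) * bb n w d S +
        bb n w d S) _ hNa (by omega) (by omega) (by omega)
    have q1 := hNAD k n d _ _ _ _ _ _ (hNAD k n d _ _ _ _ _ _ p1 p2) p3
    refine SUN_congr (hNPD k n d _ _ _ _ _ _ _ q1 le_rfl (by
      rw [Nat.sub_self, mul_zero, add_zero]
      omega) (by rw [Nat.sub_self, add_zero])) ?_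
    intro e he
    simp only [map_add, map_sum, map_mul, hGa _ e he, hGb _ e he]

end Pool.Agent.helper92.VT
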