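import Pool.Agent.helper92.VT.ELM
import Pool.Agent.helper92.VT.SUL
import Pool.Agent.helper92.VT.SUN
import Pool.Agent.helper92.VT.CL2
import Pool.Agent.helper92.VT.FN2
import Pool.Agent.helper44.VT.TMN
import Pool.Agent.helper66.VT.TSP
import Pool.Agent.helper66.VT.TUN
import Pool.Agent.helper48.VT.TFX
import Pool.Agent.helper2.VT.NTC
import Pool.Agent.helper38.VT.TNR
import Pool.Agent.helper18.VT.NMP
import Pool.Agent.helper25.VT.SUB
import Pool.Agent.helper46.VT.NPD
import Pool.Agent.helper66.VT.NAD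
import Pool.Agent.helper52.VT.NSM
import Pool.Agent.helper10.VT.NML
import Pool.Agent.helper29.VT.NGP
import Pool.Agent.helper40.VT.NPO
import Pool.Agent.helper6.VT.NVP
import Pool.Agent.helper89.VC.LMV
import Pool.Agent.helper18.VC.PBD

/-! The rows put together. -/

universe u

namespace Pool.Agent.helper92.VT

open Pool.Agent.helper92.VC

theorem CL2_all : CL2_stmt.{u} :=
  CL2 (ELM TMN TSP TUN TFX LMV) (SUL (NPD SUB) NSM (NML SUB) (NGP SUB))
    (SUN (NPD SUB) NAD NSM (NML SUB) (NGP SUB) (NPO SUB)) (NPD SUB) NAD (NGP SUB)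

theorem FN2_all : FN2_stmt.{u} :=
  FN2 CL2_all NTC TNR NMP (NGP SUB) (NVP SUB PBD) PBD

end Pool.Agent.helper92.VT
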