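import Pool.Agent.helper92.VC.Defs

/-!
# Tree tensor networks (definitions for MP_dc9173_lc)
-/

namespace Pool.Agent.helper92.VT

open MvPolynomial Pool.Agent.helper92.VC

/-- Binary trees whose leaves are labelled by variables. -/
inductive Tr (ι : Type) : Type where
  | leaf (x : ι) : Tr ι
  | node (a b : Tr ι) : Tr ι

/-- The list of the labels of the leaves. -/
def Tr.leaves {ι : Type} : Tr ι → List ι
  | .leaf x => [x]
  | .node a b => a.leaves ++ b.leaves

/-- The vector `P` of `w` polynomials is computed by a tensor network of width `w` along the tree: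
at a leaf `x` the entries are univariate polynomials in `X x`, at an inner node they are linear
combinations, with constant coefficients, of the products of an entry of the vector of the left
child and an entry of the vector of the right child. -/
def Net {K : Type*} [CommRing K] {n : ℕ} (w : ℕ) :
    Tr (Fin n) → (Fin w → MvPolynomial (Fin n) K) → Prop
  | .leaf x, P => ∀ s, ∃ p : Polynomial K,
      P s = Polynomial.aeval (X x : MvPolynomial (Fin n) K) p
  | .node a b, P => ∃ Pa Pb : Fin w → MvPolynomial (Fin n) K, Net w a Pa ∧ Net w b Pb ∧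
      ∃ q : Fin w → Fin w → Fin w → K, ∀ s, P s = ∑ i, ∑ j, C (q s i j) * (Pa i * Pb j)

/-- `A` is computed by a tree tensor network of width `w`: there is a binary tree in which every
variable is the label of exactly one leaf, and `A` is a linear combination of the entries of the
vector computed at its root. -/
def IsTreeNet {K : Type*} [CommRing K] {n : ℕ} (w : ℕ) (A : MvPolynomial (Fin n) K) : Prop :=
  ∃ t : Tr (Fin n), t.leaves.Perm (List.finRange n) ∧
    ∃ P : Fin w → MvPolynomial (Fin n) K, Net w t P ∧
      ∃ u : Fin w → K, A = ∑ s, C (u s) * P s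

/-- `A` is a sum of `c` tree tensor networks of width `w`, each with its own tree. -/
def IsSumTreeNet {K : Type*} [CommRing K] {n : ℕ} (c w : ℕ) (A : MvPolynomial (Fin n) K) : Prop :=
  ∃ B : Fin c → MvPolynomial (Fin n) K, (∀ i, IsTreeNet w (B i)) ∧ A = ∑ i, B i

section tensors

variable {ι : Type} [DecidableEq ι]

/-- the exponent vector `e` with the exponents of the variables in `l` replaced by those of
`γ` -/
def ovr (l : List ι) (γ e : ι → ℕ) : ι → ℕ := fun x => if x ∈ l then γ x else e x

/-- `T` with the exponents of the variables in `l` fixed to be those of `γ` -/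
def fixs {K : Type*} (l : List ι) (γ : ι → ℕ) (T : (ι → ℕ) → K) : (ι → ℕ) → K :=
  fun e => T (ovr l γ e)

/-- All flattenings of the elements of `S` along the nodes of the tree have rank at most `w`
(jointly for all the elements of `S`). -/
def TR (K : Type*) [CommRing K] (w : ℕ) : Tr ι → Set ((ι → ℕ) → K) → Prop
  | .leaf x, S => DimLE K w {T' | ∃ T ∈ S, ∃ γ, T' = fixs [x] γ T}
  | .node a b, S => DimLE K w {T' | ∃ T ∈ S, ∃ γ, T' = fixs (a.leaves ++ b.leaves) γ T} ∧
      TR K w a S ∧ TR K w b S

/-- Tensor networks on the level of tensors. -/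
def TNet (K : Type*) [CommRing K] (w : ℕ) : Tr ι → (Fin w → (ι → ℕ) → K) → Prop
  | .leaf x, Q => ∀ s, ∃ p : ℕ → K, Q s = fun e => p (e x)
  | .node a b, Q => ∃ Qa Qb : Fin w → (ι → ℕ) → K, TNet K w a Qa ∧ TNet K w b Qb ∧
      ∃ q : Fin w → Fin w → Fin w → K,
        ∀ s, Q s = fun e => ∑ i, ∑ j, q s i j * (Qa i e * Qb j e)

end tensors

/-- The one-hot encoding of the exponent vector `e`: the entry at `(i, j)` is `1` if `e i = j` and
`0` otherwise. -/
def oh (k : Type*) [Field k] (n d : ℕ) (e : Fin n → ℕ) : Fin n × Fin (d + 1) → k :=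
  fun p => if e p.1 = (p.2 : ℕ) then 1 else 0

/-- The function `φ` on exponent vectors with entries at most `d` is an exponential sum: the sum
over `z ∈ {0,1}^m` of the values `Φ(oh e, z)`, where the polynomial `Φ` is computed with at most
`L` operations and has degree at most `D`. -/
def NF (k : Type*) [Field k] (n d m L D : ℕ) (φ : (Fin n → ℕ) → k) : Prop :=
  ∃ Φ : MvPolynomial ((Fin n × Fin (d + 1)) ⊕ Fin m) k, ComputedIn Φ L ∧ Φ.totalDegree ≤ D ∧
    ∀ e : Fin n → ℕ, (∀ i, e i ≤ d) → φ e = ∑ z : Fin m → Fin 2,
      MvPolynomial.eval (Sum.elim (oh k n d e) fun i => ((z i : ℕ) : k)) Φ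

/-- size bound for the matrices of coefficients -/
def bg (w d : ℕ) : ℕ := 8 * (w + 1) ^ 3 * (d + 1)

/-- size bound for the error terms -/
def bb (n w d S : ℕ) : ℕ := 100 * (n + 1) * (w + 1) ^ 5 * (d + 1) * (S + 1)

end Pool.Agent.helper92.VT
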