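import Pool.Agent.helper92.VT.Spec

universe u

namespace Pool.Agent.helper92.VT

open MvPolynomial Pool.Agent.helper92.VC

theorem ELM (hTMN : TMN_stmt.{u}) (hTSP : TSP_stmt.{u}) (hTUN : TUN_stmt.{u})
    (hTFX : TFX_stmt.{u}) (hLMV : LMV_stmt.{u}) : ELM_stmt.{u} := by
  intro R K k _ _ _ _ _ _ _ π n c w d S t F A₁ A l hd hA hF hgood C _ γ
  obtain ⟨g, hg⟩ := hd
  obtain ⟨m, b, r, hm, hy⟩ := hLMV R K ((Fin n → ℕ) → K) C w g (fun j => fixs l (γ j) A₁)
    (fun j => hg ⟨γ j, rfl⟩)
  refine ⟨m, b, r, hm, fun j => ?_⟩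
  have hAr : ∀ (j : C) (i : Fin c), TR K w (t i) {fixs l (γ j) (A i)} := by
    intro j i
    have := hTFX (Fin n) K w (t i) {A i} l (γ j) (hA i)
    rwa [Set.image_singleton] at this
  refine hgood (fun e => F (ovr l (γ j) e) - ∑ s, r j s * F (ovr l (γ (b s)) e))
    (fun i => fixs l (γ j) (A i) - ∑ s, algebraMap R K (r j s) • fixs l (γ (b s)) (A i)) ?_ ?_
  · intro i
    have h1 := hTUN (Fin n) K w (m + 1) (t i)
      (Fin.cons {fixs l (γ j) (A i)} (fun s => {fixs l (γ (b s)) (A i)})) (by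
        intro s
        refine Fin.cases ?_ (fun s => ?_) s
        · exact hAr j i
        · exact hAr (b s) i)
    have h2 := hTSP (Fin n) K _ _ _ h1
    refine hTMN (Fin n) K _ _ _ _ _ ?_ ?_ h2
    · calc (m + 1) * w ≤ (w + 1) * w := by gcongr
        _ = w * (w + 1) := by ring
    · rintro _ rfl
      refine Submodule.sub_mem _ (Submodule.subset_span ?_)
        (Submodule.sum_mem _ fun s _ => Submodule.smul_mem _ _ (Submodule.subset_span ?_))
      · exact Set.mem_iUnion.2 ⟨0, by simp⟩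
      · exact Set.mem_iUnion.2 ⟨s.succ, by simp⟩
  · intro e
    have h1 := congrFun (hy j) e
    simp only [fixs, Finset.sum_apply, Pi.smul_apply, smul_eq_mul] at h1
    have h2 : ∀ q : C, algebraMap R K (F (ovr l (γ q) e))
        = A₁ (ovr l (γ q) e) + ∑ i, A i (ovr l (γ q) e) := fun q => hF _
    simp only [fixs, map_sub, map_sum, map_mul, h2, Pi.sub_apply, Finset.sum_apply,
      Pi.smul_apply, smul_eq_mul, Finset.sum_sub_distrib]
    rw [h1]
    simp only [mul_add, Finset.sum_add_distrib, Finset.mul_sum]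
    rw [Finset.sum_comm (s := Finset.univ (α := Fin m)) (t := Finset.univ (α := Fin c))]
    ring

end Pool.Agent.helper92.VT
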