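import Pool.Agent.helper92.VT.Defs
import Pool.Agent.helper92.VC.Spec
import Pool.Agent.helper22.VC.CST

/-!
# Sums of constantly many tree tensor networks: the closure lies in VNP (rows)

THEOREM. Let `k` be a field and `c` a number. A p-family which is approximated over `k(ε)` by sums
of `c` tree tensor networks of polynomially bounded width (arbitrary different trees) is in `VNP`.

## Proof

`R = k[[ε]]` (any valuation ring), `K` its fraction field, `π : R → k`. Everything is done with the
coefficient tensors, functions `T` of the exponent vector `e : Fin n → ℕ`. `ovr l γ e` is `e` with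
the exponents of the variables in `l` replaced by those of `γ`.

Claim (CL2, induction on `c`): there is a number `E` such that for all `n, w, d`, if
`F : tensor over R` is, over `K`, the sum of `A i`, `i < c`, with all flattenings of `A i` along the
tree `t i` of rank at most `w`, then `π ∘ F` is, on exponent vectors with entries at most `d`, an
exponential sum of size `q = (n + w + d + 2)^E` (`NF k n d q (3 q) (3 q)`; every `NF k n d m L D`
with `m, L, D ≤ q` is `NF k n d q (3 q) (3 q)` by NPD).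

`c = 0`: `F = 0`. Step: let `A₁` be the first summand and `t` its tree. For every node `u` of `t`
(with set `X_u` of leaves, `|u|` many) we construct (`SubSt`): `m ≤ w` exponent vectors `β_t`
(representatives for `X_u`), tensors `Λ_t` over `R` (functions of the exponents in `X_u` only) and
an error tensor `Er` over `R` such that

  `F(e) = ∑ t, Λ_t(e) F(β_t on X_u, e outside) + Er(e)`.

Moreover the reductions of the `Λ_t` are the values at `oh e` of polynomials `G_t` which are jointly
computed with `(2|u|-1) bg` operations, and the reduction of `Er` is an exponential sum.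

* Leaf `x`: candidates `j ≤ d`. The functions `A₁(x := j, ·)` lie in the span over `K` of `w`
functions, so by LMV there are `m ≤ w`, `b : Fin m → Fin (d+1)` and `r j t ∈ R` with
`A₁(x := j, ·) = ∑ t, r j t A₁(x := b t, ·)`. So
`N_j = F(x := j, ·) - ∑ t, r j t F(x := b t, ·)` is a tensor over `R` in which `A₁` cancels: it is a
sum over `i < c` of `A_i(x := j, ·) - ∑ t, r j t A_i(x := b t, ·)`, whose flattenings along `t i`
have rank at most `w (w + 1)`. By the claim for `c`, `π ∘ N_j` is an exponential sum of size `S`.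
(This is row ELM.) `Λ_t(e) = r (e x) t`, `Er(e) = N_{e x}(e)`.

* Node `u = (a, b)`: from `a`: `m_a, β^a, Λ^a, Er_a`, from `b`: `m_b, β^b, Λ^b, Er_b`. Candidates
`(i, j) ∈ Fin m_a × Fin m_b`, `γ_{ij} = ovr X_a β^a_i β^b_j`. Again by ELM (flattening at `u`) there
are `m ≤ w`, `b`, `r` with `N_{ij}(e) = F(ovr X_u γ_{ij} e) - ∑ t, r (i,j) t F(ovr X_u γ_{b t} e)`
an exponential sum after reduction. Put `β_t = γ_{b t}`,
`Λ_t(e) = ∑ i j, Λ^a_i(e) Λ^b_j(e) r (i,j) t`, and
`Er(e) = ∑ i j, Λ^a_i(e) Λ^b_j(e) N_{ij}(e) + ∑ i, Λ^a_i(e) Er_b(ovr X_a β^a_i e) + Er_a(e)`.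
Indeed `F(e) = ∑ i, Λ^a_i(e) F(ovr X_a β^a_i e) + Er_a(e)`, and at `e' = ovr X_a β^a_i e`:
`F(e') = ∑ j, Λ^b_j(e') F(ovr X_b β^b_j e') + Er_b(e')`, `Λ^b_j(e') = Λ^b_j(e)` (disjoint leaves) and
`ovr X_b β^b_j e' = ovr X_u γ_{ij} e` (disjoint leaves).
The sum `∑ i, Λ^a_i(e) Er_b(ovr X_a β^a_i e)` is an exponential sum by the selection of `i` with
one-hot Boolean variables (row NPO): only one copy of the sum for `Er_b` is used, so the sizes add
up along the tree.

* At the root `X_u` is everything, so `F(e) = ∑ t, Λ_t(e) F(β_t) + Er(e)` with constants `F(β_t)`.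

Finally `f(X) = ∑ e, φ(e) X^e` with an exponential sum `φ` is in VNP (row NVP).

All rows: namespace `Pool.Agent.helper92.VT`, `open MvPolynomial Pool.Agent.helper92.VC`. The file
`Pool/Agent/helper22/VC/CST.lean` (imported) contains the calculus of straight-line programs:
`CST_E S T r`: from the elements of `S` one can compute all elements of `T` with `r` operations
(`CST_E_mono, CST_E_trans, CST_E_union, CST_E_self, CST_E_C, CST_E_X, CST_E_add, CST_E_mul,
CST_E_iUnion, CST_E_sum`).
-/

universe u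

namespace Pool.Agent.helper92.VT

open MvPolynomial Pool.Agent.helper92.VC

/-! ### Flattenings -/

/-- TMN. Monotone: every `DimLE` is monotone in the width and the set. -/
def TMN_stmt : Prop := ∀ (ι : Type) [DecidableEq ι] (K : Type u) [Field K] (w w' : ℕ)
  (t : Tr ι) (S S' : Set ((ι → ℕ) → K)), w ≤ w' → S' ⊆ S → TR K w t S → TR K w' t S'

/-- TSP. `fixs l γ` is linear, so the set `{fixs l γ T | T ∈ span S, γ}` is contained in the span
of `{fixs l γ T | T ∈ S, γ}`. -/
def TSP_stmt : Prop := ∀ (ι : Type) [DecidableEq ι] (K : Type u) [Field K] (w : ℕ)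
  (t : Tr ι) (S : Set ((ι → ℕ) → K)),
  TR K w t S → TR K w t (Submodule.span K S : Set ((ι → ℕ) → K))

/-- TUN. Finite unions (`Fin m × Fin w ≃ Fin (m * w)`). -/
def TUN_stmt : Prop := ∀ (ι : Type) [DecidableEq ι] (K : Type u) [Field K] (w m : ℕ)
  (t : Tr ι) (S : Fin m → Set ((ι → ℕ) → K)),
  (∀ i, TR K w t (S i)) → TR K (m * w) t (⋃ i, S i)

/-- TFX. Fixing the exponents of the variables in any list `l`. For the set `u` of leaves of a node:
`fixs u δ (fixs l γ T) = fixs l γ (fixs u δ' T)` with `δ' x = if x ∈ l then γ x else δ x`; and the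
image of a span under the linear map `fixs l γ` is the span of the images. -/
def TFX_stmt : Prop := ∀ (ι : Type) [DecidableEq ι] (K : Type u) [Field K] (w : ℕ)
  (t : Tr ι) (S : Set ((ι → ℕ) → K)) (l : List ι) (γ : ι → ℕ),
  TR K w t S → TR K w t (fixs l γ '' S)

/-- NTC. From networks of polynomials to networks of tensors. Induction on the tree. Leaf: the
coefficient of `aeval (X x) p` at `e` is `p.coeff (e x)` if `e` is zero outside `x`. Node: the
coefficient at `e` of a product `Pa * Pb` of polynomials in disjoint sets of variables (all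
monomials of `Pa` vanish outside `a.leaves`, similarly `Pb`, by the induction hypothesis) is
`coeff (e on a.leaves) Pa * coeff (e on b.leaves) Pb`, for `e` zero outside both, and `Qa i e`
depends only on `e` on `a.leaves`. -/
def NTC_stmt : Prop := ∀ (n : ℕ) (K : Type u) [Field K] (w : ℕ) (t : Tr (Fin n)),
  t.leaves.Nodup → ∀ P : Fin w → MvPolynomial (Fin n) K, Net w t P →
  ∃ Q : Fin w → (Fin n → ℕ) → K, TNet K w t Q ∧ ∀ s (e : Fin n →₀ ℕ),
    MvPolynomial.coeff e (P s) = if ∀ y, y ∉ t.leaves → e y = 0 then Q s (fun x => e x) else 0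

/-- TNR. Networks satisfy the rank condition. Claim, by induction on `t`, for all tensors of the form
`T = ∑ s, Q s * W s` where `W s` does not depend on the exponents of `t.leaves`
(`W s (ovr t.leaves γ e) = W s e`): `TR K w t {T}`. `Q s` depends only on the exponents of
`t.leaves`, so `fixs t.leaves γ T = ∑ s, (Q s γ) • W s` lies in the span of the `w` functions `W s`.
For a node, `T = ∑ i, Qa i * W' i` with `W' i = ∑ s j, q s i j * Qb j * W s`, which does not depend on
the exponents of `a.leaves` (disjoint from `b.leaves`); similarly for `b`. Here `W s = u s`. -/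
def TNR_stmt : Prop := ∀ (ι : Type) [DecidableEq ι] (K : Type u) [Field K] (w : ℕ) (t : Tr ι),
  t.leaves.Nodup → ∀ (Q : Fin w → (ι → ℕ) → K) (u : Fin w → K), TNet K w t Q →
  TR K w t {fun e => ∑ s, u s * Q s e}

/-- NMP. Tree networks are mapped to tree networks by ring homomorphisms (`map`). -/
def NMP_stmt : Prop := ∀ (n : ℕ) (K L : Type u) [Field K] [Field L] (j : K →+* L) (c w : ℕ)
  (A : MvPolynomial (Fin n) K), IsSumTreeNet c w A → IsSumTreeNet c w (MvPolynomial.map j A)

/-! ### Exponential sums -/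

/-- SUB. Substitution. If `Φ` is computed with `L` operations then, from the `θ x`, one can compute
`aeval θ Φ` with `L` operations: apply `aeval θ` to all the results of the program (induction on
`SLP l`: `SLP (l.map (aeval θ) ++ l₀)` for every program `l₀` from which all `θ x` are
available, and `Avail l a → Avail (l.map (aeval θ) ++ l₀) (aeval θ a)`). -/
def SUB_stmt : Prop := ∀ (σ τ : Type) (k : Type u) [Field k] (θ : σ → MvPolynomial τ k) (L : ℕ)
  (Φ : MvPolynomial σ k), ComputedIn Φ L → CST_E (Set.range θ) {MvPolynomial.aeval θ Φ} L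

/-- NPD. Padding: more Boolean variables (multiply by the product of `1 - z_i` over the new ones,
whose sum over the new `z` is `1`; two operations each), more operations, higher degree. Uses SUB
for the renaming of the variables (`Fin m` into `Fin m'` by `Fin.castLE`). -/
def NPD_stmt : Prop := ∀ (k : Type u) [Field k] (n d m L D m' L' D' : ℕ) (φ : (Fin n → ℕ) → k),
  NF k n d m L D φ → m ≤ m' → L + 2 * (m' - m) ≤ L' → D + (m' - m) ≤ D' → NF k n d m' L' D' φ

/-- NAD. Sum of two exponential sums over the same Boolean variables. -/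
def NAD_stmt : Prop := ∀ (k : Type u) [Field k] (n d m L L' D : ℕ) (φ φ' : (Fin n → ℕ) → k),
  NF k n d m L D φ → NF k n d m L' D φ' → NF k n d m (L + L' + 1) D (fun e => φ e + φ' e)

/-- NSM. Sum of finitely many exponential sums over the same Boolean variables. -/
def NSM_stmt : Prop := ∀ (k : Type u) [Field k] (n d m L D : ℕ) (C : Type) [Fintype C]
  (φ : C → (Fin n → ℕ) → k), (∀ i, NF k n d m L D (φ i)) →
  NF k n d m (Fintype.card C * (L + 1)) D (fun e => ∑ i, φ i e)

/-- NML. Product: `Fin (m + m')`, substitute (SUB) `z ∘ Fin.castAdd` and `z ∘ Fin.natAdd`. -/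
def NML_stmt : Prop := ∀ (k : Type u) [Field k] (n d m L D m' L' D' : ℕ)
  (φ φ' : (Fin n → ℕ) → k), NF k n d m L D φ → NF k n d m' L' D' φ' →
  NF k n d (m + m') (L + L' + 1) (D + D') (fun e => φ e * φ' e)

/-- NGP. Polynomials in the one-hot variables (`m = 0`; SUB with `Sum.inl`). -/
def NGP_stmt : Prop := ∀ (k : Type u) [Field k] (n d L D : ℕ)
  (G : MvPolynomial (Fin n × Fin (d + 1)) k), ComputedIn G L → G.totalDegree ≤ D →
  NF k n d 0 L D (fun e => MvPolynomial.eval (oh k n d e) G)

/-- NPO. Selection by Boolean variables. Let `ψ` be given by `Ψ(y, z)`, `z ∈ {0,1}^{m'}`. Take the new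
Boolean variables `a ∈ {0,1}^m` and the polynomial
`OH(a) * (∑ t, a_t * G_t(y)) * Ψ(y', z)`, where `OH(a) = ∑ t, a_t * ∏_{t' ≠ t} (1 - a_{t'})` (which is `1` if
exactly one `a_t` is `1`, and `0` for the other Boolean vectors), `y'_{ij} = y_{ij}` for `i ∉ l` and
`y'_{ij} = ∑_{t : β t i = j} a_t` for `i ∈ l`. If `a` is the unit vector at `t` and `y = oh e` then
`y' = oh (ovr l (β t) e)`. Degrees: `m`, `Dg + 1`, `D`. Operations: `2 (m+1)^2` for `OH`,
`r + 2 m`, `n (d+1) m` for `y'`, `L` (SUB), and `2`. -/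
def NPO_stmt : Prop := ∀ (k : Type u) [Field k] (n d m r Dg m' L D : ℕ)
  (G : Fin m → MvPolynomial (Fin n × Fin (d + 1)) k) (l : List (Fin n)) (β : Fin m → Fin n → ℕ)
  (ψ : (Fin n → ℕ) → k), CST_E ∅ (Set.range G) r → (∀ t, (G t).totalDegree ≤ Dg) →
  (∀ t i, β t i ≤ d) → NF k n d m' L D ψ →
  NF k n d (m' + m) (L + r + 8 * (n + 1) * (d + 1) * (m + 1) ^ 2) (D + Dg + m + 1)
    (fun e => ∑ t, MvPolynomial.eval (oh k n d e) (G t) * ψ (ovr l (β t) e))

/-- NVP. From exponential sums to VNP. With `d = deg`, `M = v * (d + 1) + q` Boolean variables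
`(y, z)`: `f(X) = ∑_{y, z} ∏_i (OH(y_i) * ∑_j y_{ij} X_i^j) * Φ(y, z)`, where `OH(y_i)` is `1` if exactly
one `y_{ij}` is `1` and `0` for the other Boolean vectors. Compare coefficients: the coefficient of
`X^e` is `φ(e)` (for `e` with entries at most `d`, and `0` otherwise, as for `f`). Operations: at
most `v * 20 (d + 2)^2 + q`, degree at most `v * (2 d + 3) + q`, polynomially bounded (PBD). -/
def NVP_stmt : Prop := ∀ (k : Type u) [Field k] (F : Family k) (q : ℕ → ℕ), F.IsP → PolyBdd q →
  (∀ n, ∃ m L D, m ≤ q n ∧ L ≤ q n ∧ D ≤ q n ∧ NF k (F.v n) (F.f n).totalDegree m L D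
    (fun e => MvPolynomial.coeff (Finsupp.equivFunOnFinite.symm e) (F.f n))) → F ∈ VNP k

/-! ### The induction -/

/-- ELM. Elimination of the first summand at a node with set `l` of leaves (see above), from LMV
and TMN, TSP, TUN, TFX. -/
def ELM_stmt : Prop := ∀ (R K k : Type u) [CommRing R] [IsDomain R] [ValuationRing R] [Field K]
  [Algebra R K] [IsFractionRing R K] [Field k] (π : R →+* k) (n c w d S : ℕ)
  (t : Fin c → Tr (Fin n)) (F : (Fin n → ℕ) → R) (A₁ : (Fin n → ℕ) → K)
  (A : Fin c → (Fin n → ℕ) → K) (l : List (Fin n)),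
  DimLE K w {T' | ∃ γ, T' = fixs l γ A₁} → (∀ i, TR K w (t i) {A i}) →
  (∀ e, algebraMap R K (F e) = A₁ e + ∑ i, A i e) →
  (∀ (N : (Fin n → ℕ) → R) (A' : Fin c → (Fin n → ℕ) → K), (∀ i, TR K (w * (w + 1)) (t i) {A' i}) →
    (∀ e, algebraMap R K (N e) = ∑ i, A' i e) → NF k n d S (3 * S) (3 * S) (fun e => π (N e))) →
  ∀ (C : Type) [Fintype C] (γ : C → Fin n → ℕ), ∃ (m : ℕ) (b : Fin m → C) (r : C → Fin m → R),
    m ≤ w ∧ ∀ j, NF k n d S (3 * S) (3 * S)
      (fun e => π (F (ovr l (γ j) e) - ∑ s, r j s * F (ovr l (γ (b s)) e)))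

/-- The conclusion of ELM for the tensor `F` and the list `l`. -/
def Elim (R k : Type u) [CommRing R] [Field k] (π : R →+* k) (n w d S : ℕ)
    (F : (Fin n → ℕ) → R) (l : List (Fin n)) : Prop :=
  ∀ (C : Type) [Fintype C] (γ : C → Fin n → ℕ), ∃ (m : ℕ) (b : Fin m → C) (r : C → Fin m → R),
    m ≤ w ∧ ∀ j, NF k n d S (3 * S) (3 * S)
      (fun e => π (F (ovr l (γ j) e) - ∑ s, r j s * F (ovr l (γ (b s)) e)))

/-- The statement for the node `u` (see above). -/
def SubSt (R k : Type u) [CommRing R] [Field k] (π : R →+* k) (n w d S : ℕ)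
    (F : (Fin n → ℕ) → R) (u : Tr (Fin n)) : Prop :=
  ∃ (m : ℕ) (β : Fin m → Fin n → ℕ) (Λ : Fin m → (Fin n → ℕ) → R)
    (G : Fin m → MvPolynomial (Fin n × Fin (d + 1)) k) (Er : (Fin n → ℕ) → R),
    m ≤ w ∧ (∀ t x, β t x ≤ d) ∧
    (∀ t e e', (∀ x ∈ u.leaves, e x = e' x) → Λ t e = Λ t e') ∧
    (∀ t e, (∀ x, e x ≤ d) → π (Λ t e) = MvPolynomial.eval (oh k n d e) (G t)) ∧
    CST_E ∅ (Set.range G) ((2 * u.leaves.length - 1) * bg w d) ∧
    (∀ t, (G t).totalDegree ≤ u.leaves.length) ∧
    (∀ e, (∀ x, e x ≤ d) → F e = ∑ t, Λ t e * F (ovr u.leaves (β t) e) + Er e) ∧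
    NF k n d (S + u.leaves.length * w) ((2 * u.leaves.length - 1) * bb n w d S)
      ((2 * u.leaves.length - 1) * bb n w d S) (fun e => π (Er e))

/-- SUL. The statement for a leaf. Use `Elim` with `C = Fin (d + 1)`, `γ j = fun _ => j`.
`Λ t e = if h : e x < d + 1 then r ⟨e x, h⟩ t else 0`, `β t = fun _ => b t`,
`G t = ∑ j, C (π (r j t)) * X (x, j)` (`2 (d + 1)` operations, `m ≤ w` of them),
`Er e = if h : e x < d + 1 then N_{e x}(e) else 0`,
`π (Er e) = ∑ j, eval (oh e) (X (x, j)) * π (N_j e)` for `e x ≤ d`: NGP, NML, NSM, NPD. -/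
def SUL_stmt : Prop := ∀ (R k : Type u) [CommRing R] [Field k] (π : R →+* k) (n w d S : ℕ)
  (F : (Fin n → ℕ) → R) (x : Fin n), Elim R k π n w d S F [x] →
  SubSt R k π n w d S F (Tr.leaf x)

/-- SUN. The statement for a node (see above): NGP, NML, NSM for the first term
(`w^2 * (2 n bg + S + 3)` operations, degree `|a| + |b| + S`), NPO for the second term, NPD to
`S + (|a| + |b|) w` Boolean variables (at most `2 n w` operations each), NAD. The number `bb` is
larger than the sum of all the additional terms. -/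
def SUN_stmt : Prop := ∀ (R k : Type u) [CommRing R] [Field k] (π : R →+* k) (n w d S : ℕ)
  (F : (Fin n → ℕ) → R) (a b : Tr (Fin n)), (a.leaves ++ b.leaves).Nodup →
  Elim R k π n w d S F (a.leaves ++ b.leaves) → SubSt R k π n w d S F a →
  SubSt R k π n w d S F b → SubSt R k π n w d S F (Tr.node a b)

/-- CL2. The claim (see above). -/
def CL2_stmt : Prop := ∀ (R K k : Type u) [CommRing R] [IsDomain R] [ValuationRing R] [Field K]
  [Algebra R K] [IsFractionRing R K] [Field k] (π : R →+* k) (c : ℕ), ∃ E : ℕ,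
  ∀ (n w d : ℕ) (t : Fin c → Tr (Fin n)), (∀ i, (t i).leaves.Perm (List.finRange n)) →
  ∀ (F : (Fin n → ℕ) → R) (A : Fin c → (Fin n → ℕ) → K), (∀ i, TR K w (t i) {A i}) →
    (∀ e, algebraMap R K (F e) = ∑ i, A i e) →
    NF k n d ((n + w + d + 2) ^ E) (3 * (n + w + d + 2) ^ E) (3 * (n + w + d + 2) ^ E)
      (fun e => π (F e))

/-- FN2. The result. -/
def FN2_stmt : Prop := ∀ (k : Type u) [Field k] (c : ℕ) (F : Family k) (w : ℕ → ℕ),
  F.IsP → PolyBdd w →
  (∀ n, 0 < F.v n → ∃ G : MvPolynomial (Fin (F.v n)) (RatFunc k),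
    IsSumTreeNet c (w n) G ∧ SpecializesTo G (F.f n)) → F ∈ VNP k

end Pool.Agent.helper92.VT
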